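import Pool.Agent.Lib.MP_26f537_al.Main

/-!
# MP_26f537_al : the group of logarithmic derivatives in `R` is finitely generated

`R` is any finitely generated domain over a field `K` of characteristic `0` (no factoriality is needed), `L` its
fraction field, `D` any `K`-derivation of `L` (for instance the extension to `L`, by the quotient rule, of a
`K`-derivation `δ` of `R`; but `D R` need not be contained in `R`).
-/

set_option autoImplicit false

universe u v w

namespace Pool.Agent.Results.MP_26f537_al.LogDerivativeGroup

open Pool.Agent.Lib.LogDer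

/-- The logarithmic derivatives `D ξ / ξ`, `ξ ∈ L`, `ξ ≠ 0`, which lie in `R`, form a finitely generated
additive subgroup of `R`. -/
theorem result : ∀ (K : Type u) (R : Type v) (L : Type w) [Field K] [CharZero K] [CommRing R]
    [IsDomain R] [Algebra K R] [Algebra.FiniteType K R] [Field L] [Algebra R L]
    [IsFractionRing R L] [Algebra K L] [IsScalarTower K R L] (D : Derivation K L L),
    ∃ X : AddSubgroup R, X.FG ∧
      ∀ r : R, r ∈ X ↔ ∃ ξ : L, ξ ≠ 0 ∧ algebraMap R L r = D ξ / ξ := by
  classical
  intro K R L _ _ _ _ _ _ _ _ _ _ _ D
  have hinj : Function.Injective (algebraMap R L) := IsFractionRing.injective R L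
  -- field of constants
  let F : IntermediateField K L :=
    { carrier := {x | D x = 0}
      mul_mem' := by
        intro a b ha hb
        change D (a * b) = 0
        rw [Derivation.leibniz, show D a = 0 from ha, show D b = 0 from hb]; simp
      add_mem' := by
        intro a b ha hb
        change D (a + b) = 0
        rw [map_add, show D a = 0 from ha, show D b = 0 from hb, add_zero]
      algebraMap_mem' := by
        intro c
        change D (algebraMap K L c) = 0
        simp
      inv_mem' := by
        intro a ha
        change D a⁻¹ = 0
        rw [Derivation.leibniz_inv, show D a = 0 from ha]; simp }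
  let DF : Derivation F L L := Derivation.mk'
    { toFun := D
      map_add' := by intros; simp
      map_smul' := by
        intro c x
        have hc : D (c : L) = 0 := c.2
        change D ((c : L) * x) = (c : L) * D x
        rw [Derivation.leibniz, hc]; simp } (by intro a b; exact D.leibniz a b)
  have hDF : ∀ x, DF x = D x := fun _ => rfl
  have hconst : ∀ x : L, DF x = 0 → x ∈ Set.range (algebraMap F L) := fun x hx => ⟨⟨x, hx⟩, rfl⟩
  have hKL : Algebra.EssFiniteType K L := by
    have : Algebra.EssFiniteType R L := Algebra.EssFiniteType.of_isLocalization _ (nonZeroDivisors R)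
    exact Algebra.EssFiniteType.comp K R L
  have hFL : Algebra.EssFiniteType F L := Algebra.EssFiniteType.of_comp K F L
  have hcF : CharZero F := charZero_of_injective_algebraMap (algebraMap K F).injective
  have hder : FiniteDimensional L (Derivation F L L) :=
    Module.Finite.equiv (KaehlerDifferential.linearMapEquivDerivation F L)
  obtain ⟨W, hW, hWmem⟩ := exists_fg_bound (R := R) D
  let W' : Submodule F L := Submodule.span F (W : Set L)
  have hW' : W'.FG := by
    obtain ⟨s, hs⟩ := hW
    refine ⟨s, ?_⟩
    apply le_antisymm
    · refine Submodule.span_mono ?_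
      rw [← hs]
      exact Submodule.subset_span
    · refine Submodule.span_le.2 ?_
      rw [← hs]
      intro x hx
      exact Submodule.span_le_restrictScalars K F (s : Set L) hx
  have key := dlogW_fg (resProp F L) DF hconst W' hW'
  have hfinZ : Module.Finite ℤ (dlogW DF W') :=
    Module.Finite.iff_addGroup_fg.2 ((AddGroup.fg_iff_addSubgroup_fg _).2 key)
  let X : AddSubgroup R :=
    { carrier := {r | ∃ ξ : L, ξ ≠ 0 ∧ algebraMap R L r = D ξ / ξ}
      zero_mem' := ⟨1, one_ne_zero, by simp⟩
      add_mem' := by
        rintro r s ⟨a, ha, hra⟩ ⟨b, hb, hsb⟩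
        refine ⟨a * b, mul_ne_zero ha hb, ?_⟩
        rw [map_add, hra, hsb, Derivation.leibniz, smul_eq_mul, smul_eq_mul]
        field_simp
        ring
      neg_mem' := by
        rintro r ⟨a, ha, hra⟩
        refine ⟨a⁻¹, inv_ne_zero ha, ?_⟩
        rw [map_neg, hra, Derivation.leibniz_inv, smul_eq_mul]
        field_simp }
  have hle : X ≤ (dlogW DF W').comap (algebraMap R L).toAddMonoidHom := by
    rintro r ⟨ξ, hξ, hr⟩
    refine ⟨?_, ξ, hξ, ?_⟩
    · change algebraMap R L r ∈ W'
      rw [hr]
      exact Submodule.subset_span (hWmem _ hξ ⟨r, hr⟩)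
    · rw [hDF]
      exact hr.symm
  refine ⟨X, ?_, fun r => Iff.rfl⟩
  let j : X →+ dlogW DF W' :=
    { toFun := fun r => ⟨algebraMap R L r, hle r.2⟩
      map_zero' := by ext; simp
      map_add' := by intros; ext; simp }
  have hj : Function.Injective j := by
    intro x y hxy
    exact Subtype.ext (hinj (congrArg Subtype.val hxy))
  have : IsNoetherian ℤ (dlogW DF W') := isNoetherian_of_isNoetherianRing_of_finite ℤ _
  have hfin := Module.Finite.of_injective j.toIntLinearMap hj
  exact (AddGroup.fg_iff_addSubgroup_fg _).1 (Module.Finite.iff_addGroup_fg.1 hfin)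

end Pool.Agent.Results.MP_26f537_al.LogDerivativeGroup
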